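import Pool.Agent.H78AC.Stm2

set_option autoImplicit false

namespace Pool.Agent.H78AC

open Finset

lemma ana_sqrt (m : ℕ) : ∑ i ∈ Icc 1 m, 1 / Real.sqrt (i : ℝ) ≤ 2 * Real.sqrt m := by
  induction m with
  | zero => simp
  | succ m ih =>
    rw [Finset.sum_Icc_succ_top (by omega)]
    have h1 : (0 : ℝ) < Real.sqrt ((m + 1 : ℕ) : ℝ) := Real.sqrt_pos.2 (by positivity)
    have h2 : Real.sqrt ((m + 1 : ℕ) : ℝ) ^ 2 = m + 1 := by
      rw [Real.sq_sqrt (by positivity)]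
      push_cast
      ring
    have h3 : Real.sqrt (m : ℝ) ^ 2 = m := Real.sq_sqrt (by positivity)
    have h4 : 0 ≤ Real.sqrt (m : ℝ) := Real.sqrt_nonneg _
    have h5 : 1 / Real.sqrt ((m + 1 : ℕ) : ℝ) ≤
        2 * Real.sqrt ((m + 1 : ℕ) : ℝ) - 2 * Real.sqrt m := by
      rw [div_le_iff₀ h1]
      nlinarith [sq_nonneg (Real.sqrt ((m + 1 : ℕ) : ℝ) - Real.sqrt m)]
    linarith

lemma ana_geo (t : ℝ) (ht0 : 0 ≤ t) (ht1 : t < 1) (N : ℕ) :
    ∑ i ∈ Icc 1 N, t ^ (i - 1) ≤ 1 / (1 - t) := by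
  have h1 : ∀ N : ℕ, ∑ i ∈ Icc 1 N, t ^ (i - 1) = (1 - t ^ N) / (1 - t) := by
    intro N
    have h0 : (1 - t) ≠ 0 := by linarith
    induction N with
    | zero => simp
    | succ N ih =>
      rw [Finset.sum_Icc_succ_top (by omega), ih, Nat.add_sub_cancel]
      field_simp
      ring
  rw [h1]
  have h2 : 0 ≤ t ^ N := pow_nonneg ht0 N
  exact div_le_div_of_nonneg_right (by linarith) (by linarith)

lemma ana_main (t : ℝ) (ht0 : 0 ≤ t) (ht1 : t < 1) (N : ℕ) :
    ∑ i ∈ Icc 1 N, t ^ (i - 1) / Real.sqrt (i : ℝ) ≤ 4 / Real.sqrt (1 - t) := by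
  set ε : ℝ := 1 - t with hε
  have hε0 : 0 < ε := by linarith
  have hε1 : ε ≤ 1 := by linarith
  have hs : 0 < Real.sqrt ε := Real.sqrt_pos.2 hε0
  have hss : Real.sqrt ε * Real.sqrt ε = ε := Real.mul_self_sqrt hε0.le
  set m : ℕ := ⌈1 / ε⌉₊ with hm
  have hm1 : 1 / ε ≤ m := Nat.le_ceil _
  have hm2 : (m : ℝ) ≤ 2 / ε := by
    have h1 : (m : ℝ) < 1 / ε + 1 := Nat.ceil_lt_add_one (by positivity)
    have h2 : (1 : ℝ) ≤ 1 / ε := by
      rw [le_div_iff₀ hε0]; linarith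
    have h3 : 2 / ε = 1 / ε + 1 / ε := by ring
    linarith
  have hterm : ∀ i ∈ Icc 1 N, t ^ (i - 1) / Real.sqrt (i : ℝ) ≤
      (if i ≤ m then 1 / Real.sqrt (i : ℝ) else 0) + Real.sqrt ε * t ^ (i - 1) := by
    intro i hi
    have hi1 : 1 ≤ i := (Finset.mem_Icc.1 hi).1
    have hi0 : (0 : ℝ) < i := by exact_mod_cast hi1
    have hsi : 0 < Real.sqrt (i : ℝ) := Real.sqrt_pos.2 hi0
    have hti : 0 ≤ t ^ (i - 1) := pow_nonneg ht0 _
    have hti1 : t ^ (i - 1) ≤ 1 := pow_le_one₀ ht0 ht1.le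
    by_cases h : i ≤ m
    · rw [if_pos h]
      have h1 : t ^ (i - 1) / Real.sqrt (i : ℝ) ≤ 1 / Real.sqrt (i : ℝ) :=
        div_le_div_of_nonneg_right hti1 hsi.le
      have h2 : 0 ≤ Real.sqrt ε * t ^ (i - 1) := by positivity
      linarith
    · rw [if_neg h, zero_add, div_eq_inv_mul]
      refine mul_le_mul_of_nonneg_right ?_ hti
      push Not at h
      have h1 : 1 / ε ≤ i := hm1.trans (by exact_mod_cast h.le)
      rw [inv_eq_one_div, div_le_iff₀ hsi, ← Real.sqrt_mul hε0.le]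
      rw [Real.one_le_sqrt]
      rw [div_le_iff₀ hε0] at h1
      linarith
  have h1 : ∑ i ∈ Icc 1 N, (if i ≤ m then 1 / Real.sqrt (i : ℝ) else 0) ≤
      ∑ i ∈ Icc 1 m, 1 / Real.sqrt (i : ℝ) := by
    rw [← Finset.sum_filter]
    refine Finset.sum_le_sum_of_subset_of_nonneg ?_ fun i _ _ => by positivity
    intro i hi
    rw [Finset.mem_filter, Finset.mem_Icc] at hi
    rw [Finset.mem_Icc]
    exact ⟨hi.1.1, hi.2⟩
  have h2 := ana_sqrt m
  have h3 : Real.sqrt ε * ∑ i ∈ Icc 1 N, t ^ (i - 1) ≤ 1 / Real.sqrt ε := by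
    have h4 := ana_geo t ht0 ht1 N
    calc Real.sqrt ε * ∑ i ∈ Icc 1 N, t ^ (i - 1) ≤ Real.sqrt ε * (1 / ε) :=
          mul_le_mul_of_nonneg_left h4 hs.le
      _ = 1 / Real.sqrt ε := by
          rw [eq_div_iff hs.ne', mul_right_comm, hss]
          field_simp
  have h5 : 2 * Real.sqrt (m : ℝ) ≤ 3 / Real.sqrt ε := by
    rw [le_div_iff₀ hs, mul_assoc, ← Real.sqrt_mul (Nat.cast_nonneg m)]
    have h6 : Real.sqrt (m * ε) ≤ 3 / 2 := by
      rw [Real.sqrt_le_left (by norm_num)]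
      have : (m : ℝ) * ε ≤ 2 := by
        rw [le_div_iff₀ hε0] at hm2
        exact hm2
      linarith
    linarith
  calc ∑ i ∈ Icc 1 N, t ^ (i - 1) / Real.sqrt (i : ℝ)
      ≤ ∑ i ∈ Icc 1 N, ((if i ≤ m then 1 / Real.sqrt (i : ℝ) else 0) +
          Real.sqrt ε * t ^ (i - 1)) := Finset.sum_le_sum hterm
    _ = ∑ i ∈ Icc 1 N, (if i ≤ m then 1 / Real.sqrt (i : ℝ) else 0) +
        Real.sqrt ε * ∑ i ∈ Icc 1 N, t ^ (i - 1) := by
        rw [Finset.sum_add_distrib, Finset.mul_sum]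
    _ ≤ 3 / Real.sqrt ε + 1 / Real.sqrt ε := by linarith
    _ = 4 / Real.sqrt ε := by ring

theorem ANA1_holds : ANA1 := by
  intro b K hb htail
  have hK : 0 ≤ K := by
    have h1 := htail 1 1 le_rfl
    rw [Finset.Icc_self, Finset.sum_singleton] at h1
    have h2 := hb 1
    simp only [Nat.cast_one, Real.sqrt_one, div_one] at h1
    linarith
  have hsplit : ∀ f : ℕ → ℝ, ∀ N : ℕ, ∑ n ∈ range (N + 1), f n = f 0 + ∑ n ∈ Icc 1 N, f n := by
    intro f N
    induction N with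
    | zero => simp
    | succ N ih =>
      rw [Finset.sum_range_succ, ih, Finset.sum_Icc_succ_top (by omega)]
      ring
  refine ⟨?_, ?_⟩
  · refine summable_of_sum_range_le (c := b 0 + K) hb fun n => ?_
    have h1 : ∑ i ∈ range n, b i ≤ ∑ i ∈ range (n + 1), b i :=
      Finset.sum_le_sum_of_subset_of_nonneg (Finset.range_mono (Nat.le_succ n)) fun i _ _ => hb i
    rw [hsplit] at h1
    have h2 := htail 1 n le_rfl
    simp only [Nat.cast_one, Real.sqrt_one, div_one] at h2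
    linarith
  · intro t ht0 ht1
    set f : ℕ → ℝ := fun n => (n : ℝ) * b n * t ^ (n - 1) with hf
    have hf0 : ∀ n, 0 ≤ f n := fun n =>
      mul_nonneg (mul_nonneg (Nat.cast_nonneg n) (hb n)) (pow_nonneg ht0 _)
    have hpart : ∀ N : ℕ, ∑ n ∈ Icc 1 N, f n ≤ 4 * K / Real.sqrt (1 - t) := by
      intro N
      have h1 : ∀ n ∈ Icc 1 N, f n ≤ ∑ i ∈ Icc 1 n, b n * t ^ (i - 1) := by
        intro n _
        have h2 : ∀ i ∈ Icc 1 n, b n * t ^ (n - 1) ≤ b n * t ^ (i - 1) := by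
          intro i hi
          refine mul_le_mul_of_nonneg_left ?_ (hb n)
          exact pow_le_pow_of_le_one ht0 ht1.le (by
            have := (Finset.mem_Icc.1 hi).2
            omega)
        have h3 := Finset.sum_le_sum h2
        rw [Finset.sum_const, Nat.card_Icc, nsmul_eq_mul] at h3
        have h4 : ((n + 1 - 1 : ℕ) : ℝ) = n := by simp
        rw [h4] at h3
        calc f n = n * (b n * t ^ (n - 1)) := by simp only [hf]; ring
          _ ≤ _ := h3
      calc ∑ n ∈ Icc 1 N, f n ≤ ∑ n ∈ Icc 1 N, ∑ i ∈ Icc 1 n, b n * t ^ (i - 1) :=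
            Finset.sum_le_sum h1
        _ = ∑ i ∈ Icc 1 N, ∑ n ∈ Icc i N, b n * t ^ (i - 1) := by
            refine Finset.sum_comm' fun n i => ?_
            simp only [Finset.mem_Icc]
            omega
        _ = ∑ i ∈ Icc 1 N, (∑ n ∈ Icc i N, b n) * t ^ (i - 1) := by
            refine Finset.sum_congr rfl fun i _ => ?_
            rw [Finset.sum_mul]
        _ ≤ ∑ i ∈ Icc 1 N, K * (t ^ (i - 1) / Real.sqrt (i : ℝ)) := by
            refine Finset.sum_le_sum fun i hi => ?_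
            have h2 := htail i N (Finset.mem_Icc.1 hi).1
            have h3 := mul_le_mul_of_nonneg_right h2 (pow_nonneg ht0 (i - 1))
            calc _ ≤ _ := h3
              _ = _ := by ring
        _ = K * ∑ i ∈ Icc 1 N, t ^ (i - 1) / Real.sqrt (i : ℝ) := by rw [Finset.mul_sum]
        _ ≤ K * (4 / Real.sqrt (1 - t)) :=
            mul_le_mul_of_nonneg_left (ana_main t ht0 ht1 N) hK
        _ = 4 * K / Real.sqrt (1 - t) := by ring
    have hrange : ∀ n : ℕ, ∑ i ∈ range n, f i ≤ 4 * K / Real.sqrt (1 - t) := by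
      intro n
      have h1 : ∑ i ∈ range n, f i ≤ ∑ i ∈ range (n + 1), f i :=
        Finset.sum_le_sum_of_subset_of_nonneg (Finset.range_mono (Nat.le_succ n)) fun i _ _ => hf0 i
      rw [hsplit] at h1
      have h2 : f 0 = 0 := by simp [hf]
      have h3 := hpart n
      linarith
    exact ⟨summable_of_sum_range_le hf0 hrange, Real.tsum_le_of_sum_range_le hf0 hrange⟩

end Pool.Agent.H78AC
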