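import Pool.Agent.H78AC.Stm2

/-! Stub ANA2 of the project AC (helper78). -/

set_option autoImplicit false

namespace Pool.Agent.H78AC

open Finset

theorem ANA2_aux1 (N : ℕ) : ∑ i ∈ Icc 1 N, 1 / Real.sqrt i ≤ 2 * Real.sqrt N := by
  induction N with
  | zero => simp
  | succ N ih =>
    rw [Finset.sum_Icc_succ_top (by omega)]
    have h1 : 0 ≤ Real.sqrt N := Real.sqrt_nonneg _
    have h2 : 0 < Real.sqrt ((N + 1 : ℕ) : ℝ) := Real.sqrt_pos.2 (by positivity)
    have h3 : Real.sqrt ((N + 1 : ℕ) : ℝ) ^ 2 = N + 1 := by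
      rw [Real.sq_sqrt (by positivity)]
      push_cast
      ring
    have h4 : Real.sqrt (N : ℝ) ^ 2 = N := Real.sq_sqrt (by positivity)
    have h5 : 1 / Real.sqrt ((N + 1 : ℕ) : ℝ) ≤ 2 * Real.sqrt ((N + 1 : ℕ) : ℝ) - 2 * Real.sqrt N := by
      rw [div_le_iff₀ h2]
      nlinarith [sq_nonneg (Real.sqrt ((N + 1 : ℕ) : ℝ) - Real.sqrt N)]
    linarith

theorem ANA2_aux2 (b : ℕ → ℝ) (K : ℝ)
    (hK : ∀ n M : ℕ, 1 ≤ n → ∑ j ∈ Icc n M, b j ≤ K / Real.sqrt n) (hK0 : 0 ≤ K) (N : ℕ) :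
    ∑ n ∈ Icc 1 N, (n : ℝ) * b n ≤ 2 * K * Real.sqrt N := by
  have h1 : ∑ n ∈ Icc 1 N, (n : ℝ) * b n = ∑ n ∈ Icc 1 N, ∑ _i ∈ Icc 1 n, b n := by
    refine sum_congr rfl fun n _ => ?_
    rw [sum_const, Nat.card_Icc]
    simp
  have h2 : ∑ n ∈ Icc 1 N, ∑ _i ∈ Icc 1 n, b n = ∑ i ∈ Icc 1 N, ∑ n ∈ Icc i N, b n :=
    sum_comm' fun x y => by
      simp only [mem_Icc]
      omega
  rw [h1, h2]
  calc ∑ i ∈ Icc 1 N, ∑ n ∈ Icc i N, b n ≤ ∑ i ∈ Icc 1 N, K * (1 / Real.sqrt i) := by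
        refine sum_le_sum fun i hi => ?_
        rw [mul_one_div]
        exact hK i N (mem_Icc.1 hi).1
    _ = K * ∑ i ∈ Icc 1 N, 1 / Real.sqrt i := by rw [mul_sum]
    _ ≤ K * (2 * Real.sqrt N) := mul_le_mul_of_nonneg_left (ANA2_aux1 N) hK0
    _ = _ := by ring

theorem ANA2_aux3 (w : ℂ) (hw : ‖w‖ ≤ 1) (n : ℕ) : ‖w ^ n - 1‖ ≤ n * ‖1 - w‖ := by
  rw [← geom_sum_mul, norm_mul, norm_sub_rev w 1]
  refine mul_le_mul_of_nonneg_right ?_ (norm_nonneg _)
  refine (norm_sum_le _ _).trans ?_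
  calc ∑ i ∈ range n, ‖w ^ i‖ ≤ ∑ _i ∈ range n, (1 : ℝ) := by
        refine sum_le_sum fun i _ => ?_
        rw [norm_pow]
        exact pow_le_one₀ (norm_nonneg _) hw
    _ = n := by simp

theorem ANA2_aux4 (b : ℕ → ℝ) (K : ℝ) (hb : ∀ n, 0 ≤ b n)
    (hK : ∀ n M : ℕ, 1 ≤ n → ∑ j ∈ Icc n M, b j ≤ K / Real.sqrt n) (hK0 : 0 ≤ K)
    (w : ℂ) (hw : ‖w‖ ≤ 1) (M : ℕ) :
    ∑ n ∈ range M, b n * ‖w ^ n - 1‖ ≤ 6 * K * Real.sqrt ‖1 - w‖ := by
  obtain ⟨δ, hδ⟩ : ∃ δ, δ = ‖1 - w‖ := ⟨_, rfl⟩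
  have hδ0 : 0 ≤ δ := by rw [hδ]; exact norm_nonneg _
  have hδ2 : δ ≤ 2 := by
    rw [hδ]
    refine (norm_sub_le _ _).trans ?_
    rw [norm_one]
    linarith
  have hnd : ∀ n : ℕ, ‖w ^ n - 1‖ ≤ n * δ := fun n => by rw [hδ]; exact ANA2_aux3 w hw n
  have hn2 : ∀ n : ℕ, ‖w ^ n - 1‖ ≤ 2 := fun n => by
    refine (norm_sub_le _ _).trans ?_
    rw [norm_one, norm_pow]
    linarith [pow_le_one₀ (norm_nonneg w) hw (n := n)]
  rw [← hδ]
  rcases hδ0.eq_or_lt with h0 | h0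
  · have h1 : ∀ n ∈ range M, b n * ‖w ^ n - 1‖ = 0 := fun n _ => by
      have h2 := hnd n
      rw [← h0, mul_zero] at h2
      rw [le_antisymm h2 (norm_nonneg _), mul_zero]
    rw [sum_congr rfl h1, sum_const_zero]
    positivity
  · obtain ⟨N, hN⟩ : ∃ N, N = ⌈1 / δ⌉₊ := ⟨_, rfl⟩
    have hN1 : 1 / δ ≤ N := by rw [hN]; exact Nat.le_ceil _
    have hN2 : (N : ℝ) < 1 / δ + 1 := by rw [hN]; exact Nat.ceil_lt_add_one (by positivity)
    have hNpos : 1 ≤ N := by rw [hN]; exact Nat.one_le_iff_ne_zero.2 (Nat.ceil_pos.2 (by positivity)).ne'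
    have hterm : ∀ n ∈ range M, b n * ‖w ^ n - 1‖ ≤
        (if n ∈ Icc 1 N then (n : ℝ) * b n * δ else 0) + (if n ∈ Icc N M then 2 * b n else 0) := by
      intro n hn
      have hnM := mem_range.1 hn
      by_cases hn0 : n = 0
      · subst hn0
        simp only [pow_zero, sub_self, norm_zero, mul_zero]
        refine add_nonneg ?_ ?_
        · split_ifs
          · simp
          · exact le_rfl
        · split_ifs
          · linarith [hb 0]
          · exact le_rfl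
      · by_cases hnN : n ≤ N
        · rw [if_pos (mem_Icc.2 ⟨by omega, hnN⟩)]
          have h3 : (0 : ℝ) ≤ if n ∈ Icc N M then 2 * b n else 0 := by
            split_ifs
            · linarith [hb n]
            · exact le_rfl
          have h4 := mul_le_mul_of_nonneg_left (hnd n) (hb n)
          nlinarith
        · rw [if_neg (fun h => hnN (mem_Icc.1 h).2), if_pos (mem_Icc.2 ⟨by omega, hnM.le⟩), zero_add]
          have h4 := mul_le_mul_of_nonneg_left (hn2 n) (hb n)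
          linarith
    have hA : ∑ n ∈ range M, (if n ∈ Icc 1 N then (n : ℝ) * b n * δ else 0) ≤ 4 * K * Real.sqrt δ := by
      rw [Finset.sum_ite_mem]
      calc ∑ n ∈ range M ∩ Icc 1 N, (n : ℝ) * b n * δ ≤ ∑ n ∈ Icc 1 N, (n : ℝ) * b n * δ :=
            sum_le_sum_of_subset_of_nonneg inter_subset_right fun n _ _ =>
              mul_nonneg (mul_nonneg (Nat.cast_nonneg n) (hb n)) hδ0
        _ = (∑ n ∈ Icc 1 N, (n : ℝ) * b n) * δ := by rw [sum_mul]
        _ ≤ (2 * K * Real.sqrt N) * δ := mul_le_mul_of_nonneg_right (ANA2_aux2 b K hK hK0 N) hδ0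
        _ = 2 * K * (Real.sqrt N * δ) := by ring
        _ ≤ 2 * K * (2 * Real.sqrt δ) := by
          refine mul_le_mul_of_nonneg_left ?_ (by positivity)
          have h5 : (Real.sqrt N * δ) ^ 2 ≤ (2 * Real.sqrt δ) ^ 2 := by
            rw [mul_pow, mul_pow, Real.sq_sqrt (Nat.cast_nonneg N), Real.sq_sqrt hδ0]
            have h6 : (N : ℝ) * δ ≤ 1 + δ := by
              have h7 : (N : ℝ) * δ ≤ (1 / δ + 1) * δ := mul_le_mul_of_nonneg_right hN2.le hδ0
              have h8 : (1 / δ + 1) * δ = 1 + δ := by field_simp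
              linarith
            nlinarith
          exact le_of_sq_le_sq h5 (by positivity)
        _ = 4 * K * Real.sqrt δ := by ring
    have hB : ∑ n ∈ range M, (if n ∈ Icc N M then 2 * b n else 0) ≤ 2 * K * Real.sqrt δ := by
      rw [Finset.sum_ite_mem]
      calc ∑ n ∈ range M ∩ Icc N M, 2 * b n ≤ ∑ n ∈ Icc N M, 2 * b n :=
            sum_le_sum_of_subset_of_nonneg inter_subset_right fun n _ _ =>
              mul_nonneg two_pos.le (hb n)
        _ = 2 * ∑ n ∈ Icc N M, b n := by rw [mul_sum]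
        _ ≤ 2 * (K / Real.sqrt N) := mul_le_mul_of_nonneg_left (hK N M hNpos) two_pos.le
        _ ≤ 2 * (K * Real.sqrt δ) := by
          refine mul_le_mul_of_nonneg_left ?_ two_pos.le
          have hN0 : (0 : ℝ) < N := by exact_mod_cast hNpos
          have hs : 0 < Real.sqrt N := Real.sqrt_pos.2 hN0
          rw [div_le_iff₀ hs, mul_assoc, ← Real.sqrt_mul hδ0]
          have h9 : (1 : ℝ) ≤ δ * N := by
            have := mul_le_mul_of_nonneg_left hN1 hδ0
            have h10 : δ * (1 / δ) = 1 := by field_simp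
            linarith
          have h11 : 1 ≤ Real.sqrt (δ * N) := by
            rw [← Real.sqrt_one]
            exact Real.sqrt_le_sqrt h9
          nlinarith
        _ = 2 * K * Real.sqrt δ := by ring
    calc ∑ n ∈ range M, b n * ‖w ^ n - 1‖ ≤ ∑ n ∈ range M,
          ((if n ∈ Icc 1 N then (n : ℝ) * b n * δ else 0) + (if n ∈ Icc N M then 2 * b n else 0)) :=
          sum_le_sum hterm
      _ = _ := sum_add_distrib
      _ ≤ 4 * K * Real.sqrt δ + 2 * K * Real.sqrt δ := add_le_add hA hB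
      _ = 6 * K * Real.sqrt δ := by ring

theorem ANA2_holds : ANA2 := by
  intro b K hb hK w hw
  have hK0 : 0 ≤ K := by
    have h1 := hK 1 1 le_rfl
    simp only [Icc_self, sum_singleton, Nat.cast_one, Real.sqrt_one, div_one] at h1
    linarith [hb 1]
  have hsb : Summable b := by
    refine summable_of_sum_range_le (c := b 0 + K) hb fun n => ?_
    rcases n with _ | n
    · simp only [range_zero, sum_empty]
      linarith [hb 0]
    · rw [Finset.range_eq_Ico, Finset.sum_eq_sum_Ico_succ_bot (Nat.succ_pos n)]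
      have h1 := hK 1 n le_rfl
      have h2 : Ico (0 + 1) (n + 1) = Icc 1 n := by
        ext x
        simp only [mem_Ico, mem_Icc]
        omega
      rw [h2]
      simp only [Nat.cast_one, Real.sqrt_one, div_one] at h1
      linarith
  have hsw : Summable (fun n : ℕ => (b n : ℂ) * w ^ n) := by
    refine Summable.of_norm_bounded hsb fun n => ?_
    rw [norm_mul, norm_pow, Complex.norm_real, Real.norm_of_nonneg (hb n)]
    exact mul_le_of_le_one_right (hb n) (pow_le_one₀ (norm_nonneg _) hw)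
  refine ⟨hsw, ?_⟩
  have hsc : Summable (fun n : ℕ => (b n : ℂ)) := by exact_mod_cast hsb
  have e1 : (∑' n : ℕ, (b n : ℂ) * w ^ n) - ((∑' n : ℕ, b n : ℝ) : ℂ) = ∑' n : ℕ, (b n : ℂ) * (w ^ n - 1) := by
    rw [Complex.ofReal_tsum, ← hsw.tsum_sub hsc]
    refine tsum_congr fun n => ?_
    ring
  have hn : ∀ n, ‖(b n : ℂ) * (w ^ n - 1)‖ = b n * ‖w ^ n - 1‖ := fun n => by
    rw [norm_mul, Complex.norm_real, Real.norm_of_nonneg (hb n)]
  have hpart := ANA2_aux4 b K hb hK hK0 w hw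
  have hsn : Summable (fun n : ℕ => ‖(b n : ℂ) * (w ^ n - 1)‖) := by
    simp only [hn]
    exact summable_of_sum_range_le (fun n => mul_nonneg (hb n) (norm_nonneg _)) hpart
  rw [e1]
  refine (norm_tsum_le_tsum_norm hsn).trans ?_
  simp only [hn]
  exact Real.tsum_le_of_sum_range_le (fun n => mul_nonneg (hb n) (norm_nonneg _)) hpart

end Pool.Agent.H78AC
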