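import Mathlib

/-! Project AC (helper78): two lemmas for the analytic continuation of the generating functions of
self-avoiding walks with explicit growth at the singular points. -/

set_option autoImplicit false

namespace Pool.Agent.H78AC

/-- the cosine of the argument of `z ^ s` (the same as `Pool.Agent.N929.AC.cs`) -/
noncomputable def cs (s : ℕ) (z : ℂ) : ℝ := (z ^ s).re / ‖z‖ ^ s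

/-- STUB QP. Proof. Let `ε = 1 - t ∈ (0,1]`, so `t ^ n ≤ exp (-ε n)`. Choose `A ≥ 1` (depending on `K₁`) with
`K₁ (1 + log (n+1))² ≤ √(A n) / 2` for all `n ≥ 1` (exists: `(1 + log (n+1))² = O(√n)`). If `n ≥ A / ε²`, then
`√(A n) ≤ ε n`, so `K₁ (1 + log (n+1))² ≤ ε n / 2`. If `n < A / ε²`, then `n + 1 ≤ 2 A / ε²` (as `A / ε² ≥ 1`), so
`log (n+1) ≤ log (2A) + 2 log (1/ε)` and `K₁ (1 + log (n+1))² ≤ K₄ (1 + log (1/ε))²` with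
`K₄ = K₁ (2 + log (2A))²` (`log (1/ε) ≥ 0`). So in all cases `e n t ^ n ≤ exp (K₄ (1 + log (1/ε))²) exp (-ε n / 2)`.
This is summable, and `∑ exp (-ε n / 2) = 1 / (1 - exp (-ε/2)) ≤ 4 / ε` (as `1 - exp (-x) ≥ x / 2` for
`0 ≤ x ≤ 1`), and `4 / ε = exp (log 4 + log (1/ε)) ≤ exp (2 (1 + log (1/ε))²)`. Take `K₂ = K₄ + 2`. -/
def QP : Prop := ∀ K₁ : ℝ, 0 ≤ K₁ → ∃ K₂ : ℝ, 0 < K₂ ∧ ∀ e : ℕ → ℝ,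
  (∀ n, 0 ≤ e n ∧ e n ≤ Real.exp (K₁ * (1 + Real.log ((n : ℝ) + 1)) ^ 2)) →
  ∀ t : ℝ, 0 ≤ t → t < 1 → Summable (fun n => e n * t ^ n) ∧
    ∑' n, e n * t ^ n ≤ Real.exp (K₂ * (1 + Real.log (1 / (1 - t))) ^ 2)

/-- STUB GEO. Proof. Let `ρ = μ ‖z‖`, `γ = cs s z`, `D = ‖1 - (μ z) ^ s‖`. If `z = 0`, then `D = 1` and the first
alternative holds. Let `z ≠ 0`: `|γ| ≤ 1`, `Re ((μ z) ^ s) = ρ ^ s γ` and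
`D² = 1 - 2 ρ ^ s γ + ρ ^ (2 s) = (1 - ρ ^ s)² + 2 ρ ^ s (1 - γ)`.
If `ρ < 1` and `2 (1 - ρ ^ s)² ≥ D²`: `D ≤ √2 (1 - ρ ^ s) ≤ 2 √2 (1 - ρ)` (`s ≤ 2`), first alternative.
If `ρ < 1` and `2 (1 - ρ ^ s)² < D²`: then `D² < 4 ρ ^ s (1 - γ) ≤ 4 (1 - γ)`, second alternative
(`γ < 1` as `D² ≥ 0`). If `ρ ≥ 1`: `c (1 - γ) > ρ - 1 ≥ 0`, so `γ < 1`; `ρ < 3` and
`0 ≤ ρ ^ s - 1 ≤ ρ² - 1 ≤ 4 (ρ - 1) ≤ 4 (1 - γ)`, so `D² ≤ 16 (1 - γ)² + 18 (1 - γ) ≤ 50 (1 - γ)`. -/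
def GEO : Prop := ∀ (μ c : ℝ) (s : ℕ), 0 < μ → 0 < c → c < 1 → (s = 1 ∨ s = 2) → ∀ z : ℂ,
  μ * ‖z‖ < 1 + c * (1 - cs s z) →
  (μ * ‖z‖ < 1 ∧ ‖1 - ((μ : ℂ) * z) ^ s‖ ≤ 4 * (1 - μ * ‖z‖)) ∨
  (cs s z < 1 ∧ ‖1 - ((μ : ℂ) * z) ^ s‖ ^ 2 ≤ 50 * (1 - cs s z))

end Pool.Agent.H78AC
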