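import Pool.Agent.H78AC.Stm

/-! Stub GEO of project AC (helper78). Written by helper79. -/

set_option autoImplicit false

namespace Pool.Agent.H78AC

theorem GEO_holds : GEO := by
  intro μ c s hμ hc0 hc1 hs z hz
  by_cases hz0 : z = 0
  · left
    subst hz0
    have hs0 : s ≠ 0 := by omega
    simp [hs0]
  have hr : 0 < ‖z‖ := norm_pos_iff.2 hz0
  set r := ‖z‖ with hrdef
  set γ := cs s z with hγ
  have hrs : 0 < r ^ s := pow_pos hr s
  have hre : (z ^ s).re = γ * r ^ s := by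
    rw [hγ]; unfold cs
    rw [← hrdef]
    field_simp
  have hγ1 : γ ≤ 1 := by
    have h1 : (z ^ s).re ≤ ‖z ^ s‖ := Complex.re_le_norm _
    rw [norm_pow, hre, ← hrdef] at h1
    nlinarith
  have hγ2 : -1 ≤ γ := by
    have h1 : |(z ^ s).re| ≤ ‖z ^ s‖ := Complex.abs_re_le_norm _
    rw [norm_pow, hre, ← hrdef] at h1
    have h2 := (abs_le.1 h1).1
    nlinarith
  set ρ := μ * r with hρ
  have hρ0 : 0 < ρ := mul_pos hμ hr
  set w : ℂ := ((μ : ℂ) * z) ^ s with hw
  have hwre : w.re = ρ ^ s * γ := by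
    rw [hw, mul_pow, ← Complex.ofReal_pow, Complex.re_ofReal_mul, hre, hρ, mul_pow]
    ring
  have hwn : ‖w‖ = ρ ^ s := by
    rw [hw, norm_pow, norm_mul, Complex.norm_real, Real.norm_of_nonneg hμ.le]
  have hD : ‖1 - w‖ ^ 2 = (1 - ρ ^ s) ^ 2 + 2 * ρ ^ s * (1 - γ) := by
    have h1 : ‖1 - w‖ ^ 2 = (1 - w.re) ^ 2 + w.im ^ 2 := by
      rw [Complex.sq_norm, Complex.normSq_apply]
      simp
      ring
    have h2 : ‖w‖ ^ 2 = w.re ^ 2 + w.im ^ 2 := by
      rw [Complex.sq_norm, Complex.normSq_apply]; ring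
    rw [hwn] at h2
    rw [h1]
    have h3 : w.im ^ 2 = (ρ ^ s) ^ 2 - w.re ^ 2 := by linarith
    rw [h3, hwre]
    ring
  have hDn : 0 ≤ ‖1 - w‖ := norm_nonneg _
  have hρs0 : 0 < ρ ^ s := pow_pos hρ0 s
  by_cases hρ1 : ρ < 1
  · have hρs1 : ρ ^ s ≤ 1 := pow_le_one₀ hρ0.le hρ1.le
    have hB : 1 - ρ ^ s ≤ 2 * (1 - ρ) := by
      rcases hs with h | h
      · rw [h, pow_one]; linarith
      · rw [h]; nlinarith
    by_cases hcase : ‖1 - w‖ ^ 2 ≤ 2 * (1 - ρ ^ s) ^ 2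
    · left
      refine ⟨hρ1, ?_⟩
      apply abs_le_of_sq_le_sq' _ (by linarith) |>.2
      nlinarith
    · right
      push Not at hcase
      have h1 : (1 - ρ ^ s) ^ 2 < 2 * ρ ^ s * (1 - γ) := by linarith
      have h2 : 0 < 1 - γ := by
        by_contra hcon
        push Not at hcon
        nlinarith [sq_nonneg (1 - ρ ^ s)]
      refine ⟨by linarith, ?_⟩
      rw [hD]
      nlinarith
  · right
    push Not at hρ1
    have h0 : ρ - 1 < c * (1 - γ) := by linarith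
    have h1 : 0 < 1 - γ := by
      by_contra hcon
      push Not at hcon
      nlinarith
    have h2 : ρ - 1 < 1 - γ := by nlinarith
    have h3 : ρ < 3 := by linarith
    have h4 : ρ ^ s - 1 ≤ 4 * (ρ - 1) := by
      rcases hs with h | h
      · rw [h, pow_one]; linarith
      · rw [h]; nlinarith
    have h5 : 0 ≤ ρ ^ s - 1 := by
      have := one_le_pow₀ hρ1 (n := s)
      linarith
    have h6 : ρ ^ s ≤ 9 := by linarith
    refine ⟨by linarith, ?_⟩
    rw [hD]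
    have h7 : (1 - ρ ^ s) ^ 2 ≤ (4 * (1 - γ)) ^ 2 := by
      have : (1 - ρ ^ s) ^ 2 = (ρ ^ s - 1) ^ 2 := by ring
      rw [this]
      apply pow_le_pow_left₀ h5
      linarith
    have h8 : 2 * ρ ^ s * (1 - γ) ≤ 18 * (1 - γ) := by nlinarith
    nlinarith

end Pool.Agent.H78AC
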