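import Pool.Agent.H78AC.Stm

/-! Project AC, second part (helper78): self-avoiding polygons.  Three lemmas. -/

set_option autoImplicit false

namespace Pool.Agent.H78AC

open Finset

/-- STUB ANA1. Proof. `b` is summable (partial sums of nonnegative terms are at most `b 0 + K`). Let `N` be
arbitrary and `t ∈ [0,1)`. Since `t ^ (n-1) ≤ t ^ (i-1)` for `1 ≤ i ≤ n`, `n t ^ (n-1) ≤ ∑_{i=1}^n t ^ (i-1)`, so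
`∑_{n=1}^N n b_n t ^ (n-1) ≤ ∑_{i=1}^N t ^ (i-1) ∑_{n=i}^N b_n ≤ K ∑_{i=1}^N t ^ (i-1) / √i`. Let `ε = 1 - t`. The terms
with `i ≤ 1/ε + 1` contribute at most `∑_{i ≤ 1/ε + 1} i^(-1/2) ≤ 2 √(1/ε + 1) ≤ 2 √2 / √ε`, those with
`i > 1/ε` at most `√ε ∑ t ^ (i-1) ≤ √ε / ε = 1/√ε`. So all partial sums are at most `4 K / √ε`: this gives
summability and the bound. -/
def ANA1 : Prop := ∀ (b : ℕ → ℝ) (K : ℝ), (∀ n, 0 ≤ b n) →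
  (∀ n M : ℕ, 1 ≤ n → ∑ j ∈ Icc n M, b j ≤ K / Real.sqrt n) →
  Summable b ∧ ∀ t : ℝ, 0 ≤ t → t < 1 →
    Summable (fun n : ℕ => (n : ℝ) * b n * t ^ (n - 1)) ∧
    ∑' n : ℕ, (n : ℝ) * b n * t ^ (n - 1) ≤ 4 * K / Real.sqrt (1 - t)

/-- STUB ANA2. Proof. `b` is summable (see ANA1), `K ≥ 0`. Let `‖w‖ ≤ 1`, `δ = ‖1 - w‖ ≤ 2`. The difference is
`∑ b_n (w ^ n - 1)` and `‖w ^ n - 1‖ ≤ min 2 (n δ)` (the term `n = 0` vanishes). If `δ = 0` it is `0`. Let `δ > 0` and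
`N = ⌈1/δ⌉` (so `1 ≤ N`, `1/δ ≤ N ≤ 1/δ + 1`). The terms `n ≤ N` contribute at most
`δ ∑_{n=1}^N n b_n = δ ∑_{i=1}^N ∑_{n=i}^N b_n ≤ δ K ∑_{i=1}^N i^(-1/2) ≤ 2 K δ √N ≤ 2 K δ √(1/δ + 1) ≤ 4 K √δ` (as `δ ≤ 2`:
`δ (1/δ+1) = 1 + δ ≤ 3`). The terms `n ≥ N` contribute at most `2 K / √N ≤ 2 K √δ`. Total at most `6 K √δ`. -/
def ANA2 : Prop := ∀ (b : ℕ → ℝ) (K : ℝ), (∀ n, 0 ≤ b n) →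
  (∀ n M : ℕ, 1 ≤ n → ∑ j ∈ Icc n M, b j ≤ K / Real.sqrt n) →
  ∀ w : ℂ, ‖w‖ ≤ 1 → Summable (fun n : ℕ => (b n : ℂ) * w ^ n) ∧
    ‖(∑' n : ℕ, (b n : ℂ) * w ^ n) - ((∑' n : ℕ, b n : ℝ) : ℂ)‖ ≤ 6 * K * Real.sqrt ‖1 - w‖

/-- STUB SEG. (`GEO` from `Stm.lean` is proved in `GEO.lean`.) Proof. Write `ρ = μ ‖z‖`, `γ = cs 2 z`,
`D = ‖1 - (μ z)^2‖`.
(Derivative) By `GEO` either `ρ < 1` and `D ≤ 4 (1 - ρ) ≤ 4`: then `‖F' z‖ ≤ K / √(1-ρ) ≤ 2 K / √D ≤ 4 K / D`; or `γ < 1`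
and `D² ≤ 50 (1 - γ)`: then `z ≠ 0` or else `D = 1` and `ρ = 0 < 1` (then `‖F' z‖ ≤ K`), and for `z ≠ 0`
`‖F' z‖ ≤ K / √(1 - γ) ≤ √50 K / D`.
(Function) If `ρ < 1`, use the third hypothesis. Let `ρ ≥ 1`. Then `c (1 - γ) > ρ - 1 ≥ 0`, so `γ < 1`, `-1 ≤ γ`
and `ρ < 3`. As in `GEO`, `D² = (ρ² - 1)² + 2 ρ² (1 - γ) ≥ 2 (1 - γ)` and `D ≤ 1 + ρ² ≤ 10`. Let
`ρ' = 1 - (1 - γ)/4 ∈ [1/2, 1)`, `z' = (ρ'/ρ) z`. All points `τ z` with `0 < τ ≤ 1` are in the domain and have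
`cs 2 (τ z) = γ`. By the mean value inequality on the segment from `z'` to `z`:
`‖F z - F z'‖ ≤ K / √(1-γ) * ‖z - z'‖` with `‖z - z'‖ = (ρ - ρ')/μ ≤ ρ - ρ' ≤ 5/4 (1 - γ)`, so it is at most
`5/4 K √(1 - γ) ≤ 5/4 K D / √2 ≤ 3 K √D` (`D ≤ 10`). And `‖F z' - F₁‖ ≤ K √D'` with
`D' = ‖1 - (μ z')²‖ ≤ D + (ρ² - ρ'²) ≤ D + 4 (ρ - ρ') ≤ D + 5 (1 - γ) ≤ D + 5 D²/2 ≤ 26 D`, `√26 ≤ 6`. Total `≤ 9 K √D`. -/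
def SEG : Prop := ∀ (μ c K : ℝ) (F F' : ℂ → ℂ) (F₁ : ℂ), 1 ≤ μ → 0 < c → c < 1 → 0 ≤ K →
  (∀ z : ℂ, μ * ‖z‖ < 1 + c * (1 - cs 2 z) → HasDerivAt F (F' z) z) →
  (∀ z : ℂ, z ≠ 0 → μ * ‖z‖ < 1 + c * (1 - cs 2 z) → cs 2 z < 1 →
    ‖F' z‖ ≤ K / Real.sqrt (1 - cs 2 z)) →
  (∀ z : ℂ, μ * ‖z‖ < 1 → ‖F z - F₁‖ ≤ K * Real.sqrt ‖1 - ((μ : ℂ) * z) ^ 2‖ ∧
    ‖F' z‖ ≤ K / Real.sqrt (1 - μ * ‖z‖)) →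
  ∀ z : ℂ, μ * ‖z‖ < 1 + c * (1 - cs 2 z) →
    ‖F z - F₁‖ ≤ 50 * K * Real.sqrt ‖1 - ((μ : ℂ) * z) ^ 2‖ ∧
    ‖F' z‖ ≤ 50 * K / ‖1 - ((μ : ℂ) * z) ^ 2‖

end Pool.Agent.H78AC
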