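import Pool.Agent.N929.AC.Poly
import Pool.Agent.N353.AC.PRIM
import Pool.Agent.TH546.PC.Tail
import Pool.Agent.H78AC.Core
import Pool.Agent.H78AC.Stm2

/-! Project AC, second part (helper78): self-avoiding polygons of the square lattice. -/

set_option autoImplicit false
set_option linter.unusedVariables false

namespace Pool.Agent.H78AC

open Finset Filter Topology TH966.AK Pool.Agent.N929.EG
open Pool.Agent.N929.AC (Om xx full_ac2 Ext pv gn om_star)
open scoped Classical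

noncomputable section

/-- `p_{2j} μ^(-2j)` for `j ≥ 2`, and `0` for `j ≤ 1` -/
def bj (j : ℕ) : ℝ := if 2 ≤ j then Pool.Agent.W870.Pg.Fp j else 0

theorem bj_nonneg (j : ℕ) : 0 ≤ bj j := by
  unfold bj
  split_ifs with h
  · exact (Pool.Agent.W870.Pg.Fp_pos h).le
  · exact le_rfl

theorem bj_tail : ∃ K : ℝ, 0 ≤ K ∧ ∀ n M : ℕ, 1 ≤ n → ∑ j ∈ Icc n M, bj j ≤ K / Real.sqrt n := by
  obtain ⟨K, hK, h⟩ := Pool.Agent.TH546.PC.tail
  refine ⟨K, hK, fun n M hn => ?_⟩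
  have key : ∀ n M : ℕ, 2 ≤ n → ∑ j ∈ Icc n M, bj j ≤ K / Real.sqrt n := by
    intro n M hn
    refine le_trans (le_of_eq ?_) (h n M hn)
    refine sum_congr rfl fun j hj => ?_
    unfold bj
    rw [if_pos (hn.trans (mem_Icc.1 hj).1)]
  rcases Nat.lt_or_ge n 2 with h2 | h2
  · have e : n = 1 := by omega
    subst e
    have h3 : ∑ j ∈ Icc 1 M, bj j ≤ ∑ j ∈ Icc 2 M, bj j := by
      have h4 : ∀ j ∈ Icc 1 M, j ∉ Icc 2 M → bj j = 0 := by
        intro j hj hj2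
        rw [mem_Icc] at hj
        rw [mem_Icc, not_and_or] at hj2
        unfold bj
        rw [if_neg]
        rcases hj2 with h | h
        · exact h
        · exact absurd hj.2 h
      rcases Nat.lt_or_ge M 2 with hM | hM
      · rw [Finset.sum_eq_zero fun j hj => ?_]
        · exact Finset.sum_nonneg fun j _ => bj_nonneg j
        · unfold bj
          rw [if_neg]
          have := (mem_Icc.1 hj).2
          omega
      · rw [← Finset.sum_subset (Icc_subset_Icc one_le_two le_rfl) h4]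
    refine (h3.trans (key 2 M le_rfl)).trans ?_
    rw [Nat.cast_one, Real.sqrt_one, div_one]
    refine div_le_self hK ?_
    rw [show (1 : ℝ) = Real.sqrt 1 by simp]
    exact Real.sqrt_le_sqrt (by norm_num)
  · exact key n M h2

/-- `pv m μ^(-m)` -/
def bm (m : ℕ) : ℝ := if Even m ∧ 4 ≤ m then bj (m / 2) else 0

theorem bm_nonneg (m : ℕ) : 0 ≤ bm m := by
  unfold bm
  split_ifs
  · exact bj_nonneg _
  · exact le_rfl

theorem bm_tail : ∃ K : ℝ, 0 ≤ K ∧ ∀ n M : ℕ, 1 ≤ n → ∑ j ∈ Icc n M, bm j ≤ K / Real.sqrt n := by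
  obtain ⟨K, hK, h⟩ := bj_tail
  refine ⟨2 * K, by positivity, fun n M hn => ?_⟩
  obtain ⟨N, hN⟩ : ∃ N : ℕ, N = (n + 1) / 2 := ⟨_, rfl⟩
  have hN1 : 1 ≤ N := by omega
  have h1 : ∑ m ∈ Icc n M, bm m ≤ ∑ j ∈ Icc N M, bj j := by
    have e1 : ∑ m ∈ Icc n M, bm m = ∑ m ∈ (Icc n M).filter (fun m => Even m ∧ 4 ≤ m), bj (m / 2) := by
      rw [sum_filter]
      rfl
    rw [e1]
    have hinj : Set.InjOn (fun m : ℕ => m / 2) ((Icc n M).filter (fun m => Even m ∧ 4 ≤ m)) := by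
      intro a ha b hb hab
      simp only [coe_filter, Set.mem_ofPred_eq] at ha hb
      obtain ⟨k, hk⟩ := ha.2.1
      obtain ⟨l, hl⟩ := hb.2.1
      simp only at hab
      omega
    rw [← sum_image (f := bj) hinj]
    refine sum_le_sum_of_subset_of_nonneg ?_ fun j _ _ => bj_nonneg j
    intro j hj
    rw [mem_image] at hj
    obtain ⟨m, hm, rfl⟩ := hj
    rw [mem_filter, mem_Icc] at hm
    rw [mem_Icc]
    obtain ⟨k, hk⟩ := hm.2.1
    omega
  refine (h1.trans (h N M hN1)).trans ?_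
  have hn0 : (0 : ℝ) < n := by exact_mod_cast hn
  have hN0 : (0 : ℝ) < N := by exact_mod_cast hN1
  rw [div_le_div_iff₀ (Real.sqrt_pos.2 hN0) (Real.sqrt_pos.2 hn0)]
  have h2 : Real.sqrt n ≤ 2 * Real.sqrt N := by
    rw [show (2 : ℝ) = Real.sqrt 4 by rw [show (4 : ℝ) = 2 ^ 2 by norm_num]; simp,
      ← Real.sqrt_mul (by norm_num)]
    refine Real.sqrt_le_sqrt ?_
    have : n ≤ 4 * N := by omega
    exact_mod_cast this
  nlinarith

/-- the constant of the continuation is less than one -/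
theorem c_lt_one (L : H982.Lat) {A : ℤ × ℤ → ℤ × ℤ → Prop} (Z : Rule A)
    {φ : ℤ × ℤ → ℤ × ℤ} {R : ℕ → ℤ × ℤ → Prop} (H : @H982.Coord L A φ R)
    {μ : ℝ} (hμ : μ = ⨅ n : {n : ℕ // 1 ≤ n}, (((wks A n.1).ncard : ℝ) ^ ((1 : ℝ) / (n.1 : ℝ))))
    (h1 : 1 ≤ μ) {c : ℝ} (hz : (∀ z : ℂ, μ * ‖z‖ < 1 → z ∈ Om c μ 2))
    (hall : ∀ z ∈ Om c μ 2, z ≠ 0 → Pool.Agent.N929.AC.cs 2 z < 1 →
      Summable (fun n => ((wks A n).ncard : ℝ) * xx c μ 2 z ^ n)) : c < 1 := by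
  by_contra hcon
  push Not at hcon
  have hμ0 : 0 < μ := by linarith
  obtain ⟨K, hK⟩ := Pool.Agent.Results.MP_d98d96_pr.ThreeLatticesLogTwo.bounds (L := L) H
    (fun n => (wks A n).ncard) (fun n => rfl) μ hμ
  have e1 : (0 : ℝ) < 1 / (2 * μ) := by positivity
  have e2 : μ * (1 / (2 * μ)) < 1 := by field_simp; norm_num
  obtain ⟨z, hzd⟩ : ∃ z : ℂ, z = ((1 / (2 * μ) : ℝ) : ℂ) * Complex.I := ⟨_, rfl⟩
  have hnz : ‖z‖ = 1 / (2 * μ) := by
    rw [hzd, norm_mul, Complex.norm_I, mul_one, Complex.norm_real, Real.norm_of_nonneg e1.le]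
  have hz0 : z ≠ 0 := by
    rw [← norm_pos_iff, hnz]; exact e1
  have hzn : μ * ‖z‖ < 1 := by rw [hnz]; exact e2
  have hzc : Pool.Agent.N929.AC.cs 2 z = -1 := by
    unfold Pool.Agent.N929.AC.cs
    rw [hnz, hzd, mul_pow, Complex.I_sq, mul_neg_one, Complex.neg_re, ← Complex.ofReal_pow,
      Complex.ofReal_re, neg_div, div_self (by positivity)]
  have hsum := hall z (hz z hzn) hz0 (by rw [hzc]; norm_num)
  have ht := hsum.tendsto_atTop_zero
  have hx : xx c μ 2 z = (1 - 2 * c) / μ := by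
    unfold Pool.Agent.N929.AC.xx
    rw [hzc]; ring
  rw [hx] at ht
  have ht2 := ht.abs
  rw [abs_zero] at ht2
  have hev : ∀ᶠ n : ℕ in atTop, |((wks A n).ncard : ℝ) * ((1 - 2 * c) / μ) ^ n| < 1 :=
    ht2.eventually_lt_const one_pos
  obtain ⟨n, hn, hn2⟩ := (hev.and (eventually_ge_atTop 2)).exists
  obtain ⟨hlow, -⟩ := hK n hn2
  have h5 : 1 ≤ |1 - 2 * c| := by
    rw [abs_of_nonpos (by linarith)]; linarith
  have h6 : 1 ≤ |1 - 2 * c| ^ n := one_le_pow₀ h5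
  have hpos : 0 < μ ^ n := pow_pos hμ0 n
  rw [abs_mul, Nat.abs_cast, abs_pow, abs_div, abs_of_pos hμ0, div_pow, mul_div_assoc',
    div_lt_one hpos] at hn
  have hlow' : μ ^ n ≤ ((wks A n).ncard : ℝ) := hlow
  nlinarith

theorem even_hasSum {E : Type} [AddCommMonoid E] [TopologicalSpace E] (G : ℕ → E)
    (hG : ∀ m, ¬ Even m → G m = 0) (S : E) : HasSum (fun j => G (2 * j)) S ↔ HasSum G S := by
  have hinj : Function.Injective (fun j : ℕ => 2 * j) := fun a b h => by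
    simp only at h
    omega
  refine hinj.hasSum_iff fun m hm => hG m fun he => hm ?_
  obtain ⟨k, hk⟩ := he
  exact ⟨k, by simp only; omega⟩

theorem bm_two (j : ℕ) : bm (2 * j) = bj j := by
  unfold bm bj
  by_cases h : 2 ≤ j
  · rw [if_pos ⟨even_two_mul j, by omega⟩, if_pos (by omega), if_pos h]
    congr 1
    omega
  · rw [if_neg (fun h2 => h (by omega)), if_neg h]

theorem poly_core (hA1 : ANA1) (hA2 : ANA2) (hSEG : SEG) : ∃ μ : ℝ, 1 ≤ μ ∧
    Tendsto (fun n : ℕ => ((({ω | Pool.Agent.H976R2.IsSAW n ω}.ncard : ℕ) : ℝ)) ^ (1 / (n : ℝ)))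
      atTop (𝓝 μ) ∧
    Summable (fun m => pv m / μ ^ m) ∧
    ∃ δ : ℝ, 0 < δ ∧
    (IsOpen (Om δ μ 2) ∧ IsPreconnected (Om δ μ 2) ∧ (∀ z : ℂ, μ * ‖z‖ < 1 → z ∈ Om δ μ 2) ∧
      ∀ z : ℂ, μ * ‖z‖ = 1 → z ^ 2 ≠ (‖z‖ : ℂ) ^ 2 → z ∈ Om δ μ 2) ∧
    ∃ F : ℂ → ℂ, Ext δ μ 2 pv F ∧ ∃ K : ℝ, ∀ z ∈ Om δ μ 2,
      ‖F z - ((∑' m, pv m / μ ^ m : ℝ) : ℂ)‖ ≤ K * Real.sqrt ‖1 - ((μ : ℂ) * z) ^ 2‖ ∧
      ‖deriv F z‖ ≤ K / ‖1 - ((μ : ℂ) * z) ^ 2‖ := by
  obtain ⟨μ, hμ⟩ : ∃ μ : ℝ, μ = ⨅ n : {n : ℕ // 1 ≤ n},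
    (((TH966.AK.wks (fun p q : ℤ × ℤ => |p.1 - q.1| + |p.2 - q.2| = 1) n.1).ncard : ℝ) ^
      ((1 : ℝ) / (n.1 : ℝ))) := ⟨_, rfl⟩
  obtain ⟨hμ1, c, hc, hdom, -, h⟩ := full_ac2 H982P.sqL Pool.Agent.R965.HP.Sq.rule
    (show 1 ≤ 2 by norm_num) H982P.coord_sq Pool.Agent.R965.HP.sq_poor hμ (s := 2) rfl
  have hμ0 : 0 < μ := by linarith
  have hμ2 : μ = @H982.mu H982P.sqL := by
    rw [hμ, ← @H982.mu_eq_iInf H982P.sqL _ _ _ H982P.coord_sq]
    rfl
  have hμ3 : μ = H981.mu := by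
    rw [hμ2, Pool.Agent.R965.HP.mu_sq]
  have hc1 : c < 1 := by
    obtain ⟨C, -, h'⟩ := h 1 0 zero_le_one
    obtain ⟨f, -, -, h3⟩ := h' (fun _ => 1) (fun x => by simp)
    have he : ∀ n, ∑ᶠ ω ∈ wks Pool.Agent.R965.HP.Sq.A n, (1 : ℝ) =
        ((wks Pool.Agent.R965.HP.Sq.A n).ncard : ℝ) := by
      intro n
      rw [sum_wks Pool.Agent.R965.HP.Sq.rule (fun _ => (1 : ℝ)) n,
        card_wks Pool.Agent.R965.HP.Sq.rule]
      unfold WF
      simp
    simp only [he] at h3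
    exact c_lt_one H982P.sqL Pool.Agent.R965.HP.Sq.rule H982P.coord_sq hμ hμ1 hdom.2.2.1
      fun z h1 h2 h4 => (h3 z h1 h2 h4).1
  -- coefficients
  have hpv : ∀ m, pv m / μ ^ m = bm m := by
    intro m
    unfold pv bm bj
    by_cases hm : Even m ∧ 4 ≤ m
    · rw [if_pos hm, if_pos hm, if_pos (by omega)]
      obtain ⟨k, rfl⟩ := hm.1
      have e : (k + k) / 2 = k := by omega
      rw [e]
      unfold Pool.Agent.W870.Pg.Fp
      rw [hμ3, two_mul]
    · rw [if_neg hm, if_neg hm, zero_div]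
  obtain ⟨K1, hK1, htail1⟩ := bm_tail
  obtain ⟨K2, hK2, htail2⟩ := bj_tail
  obtain ⟨hsumb, hder⟩ := hA1 bm K1 bm_nonneg htail1
  refine ⟨μ, hμ1, ?_, ?_, c, hc, hdom, ?_⟩
  · have h1 := @H982.tendsto_root H982P.sqL
    rw [← hμ2] at h1
    refine h1.congr fun n => ?_
    rw [← Pool.Agent.N929.AC.wks_sq]
    congr 1
    exact (@H982.ncard_walks H982P.sqL _ _ _ H982P.coord_sq n).symm
  · simp only [hpv]
    exact hsumb
  -- the generating function of the walks that end next to the origin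
  obtain ⟨C, hC, h'⟩ := h 1 0 zero_le_one
  obtain ⟨f, f1, f2, f3⟩ := h' gn (fun x => by
    unfold Pool.Agent.N929.AC.gn
    split_ifs <;> norm_num)
  obtain ⟨u, hu⟩ : ∃ u : ℕ → ℝ, u = fun n => ((Pool.Agent.H739K.KP n).card : ℝ) := ⟨_, rfl⟩
  have hue : ∀ n, ∑ᶠ ω ∈ wks Pool.Agent.R965.HP.Sq.A n, gn (ω (Fin.last n)) = u n := by
    intro n
    rw [hu]
    exact Pool.Agent.N929.AC.sum_gn n
  simp only [hue] at f2 f3
  have hu0 : ∀ n, 0 ≤ u n := fun n => by rw [hu]; exact Nat.cast_nonneg _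
  have hv : ∀ n, 3 ≤ n → pv (n + 1) = u n / (2 * ((n : ℝ) + 1)) := by
    intro n hn
    rw [hu]
    exact Pool.Agent.N929.AC.pv_eq n hn
  obtain ⟨U, hU⟩ : ∃ U : ℝ, U = u 0 + u 1 + u 2 := ⟨_, rfl⟩
  have hU0 : 0 ≤ U := by rw [hU]; have := hu0 0; have := hu0 1; have := hu0 2; linarith
  obtain ⟨v, hvd⟩ : ∃ v : ℕ → ℝ, v = fun n => u n / μ ^ n := ⟨_, rfl⟩
  have hv0 : ∀ n, 0 ≤ v n := fun n => by rw [hvd]; exact div_nonneg (hu0 n) (by positivity)
  have hS : ∀ t : ℝ, 0 ≤ t → t < 1 → Summable (fun n => v n * t ^ n) ∧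
      ∑' n, v n * t ^ n ≤ 3 * U + 8 * μ * K1 / Real.sqrt (1 - t) := by
    intro t ht0 ht1
    obtain ⟨s1, s2⟩ := hder t ht0 ht1
    obtain ⟨G, hG⟩ : ∃ G : ℕ → ℝ, G = fun n : ℕ => ((n : ℝ) + 1) * bm (n + 1) * t ^ n := ⟨_, rfl⟩
    have hGs : HasSum G (∑' n : ℕ, (n : ℝ) * bm n * t ^ (n - 1)) := by
      have h1 := s1.hasSum
      rw [← hasSum_nat_add_iff' 1] at h1
      simp only [Finset.range_one, Finset.sum_singleton, Nat.cast_zero, zero_mul, sub_zero,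
        Nat.add_sub_cancel, Nat.cast_add, Nat.cast_one] at h1
      rw [hG]
      exact h1
    obtain ⟨J, hJ⟩ : ∃ J : ℕ → ℝ, J = fun n => if n ∈ range 3 then U else 0 := ⟨_, rfl⟩
    have hJs : HasSum J (3 * U) := by
      have h1 : HasSum J (∑ n ∈ range 3, J n) :=
        hasSum_sum_of_ne_finset_zero fun n hn => by rw [hJ]; exact if_neg hn
      have h2 : ∑ n ∈ range 3, J n = 3 * U := by
        rw [hJ, Finset.sum_congr rfl fun n hn => if_pos hn, Finset.sum_const, card_range,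
          nsmul_eq_mul]
        norm_num
      rwa [h2] at h1
    have hle : ∀ n, v n * t ^ n ≤ J n + 2 * μ * G n := by
      intro n
      have htn : t ^ n ≤ 1 := pow_le_one₀ ht0 ht1.le
      have htn0 : 0 ≤ t ^ n := pow_nonneg ht0 n
      have hG0 : 0 ≤ G n := by
        rw [hG]
        have := bm_nonneg (n + 1)
        positivity
      rcases Nat.lt_or_ge n 3 with hn | hn
      · have h1 : v n ≤ U := by
          have h2 : v n ≤ u n := by
            rw [hvd]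
            exact div_le_self (hu0 n) (one_le_pow₀ hμ1)
          refine h2.trans ?_
          rw [hU]
          have := hu0 0; have := hu0 1; have := hu0 2
          interval_cases n <;> linarith
        have h3 : J n = U := by rw [hJ]; exact if_pos (mem_range.2 hn)
        rw [h3]
        have h4 : v n * t ^ n ≤ U * 1 := mul_le_mul h1 htn htn0 hU0
        nlinarith
      · have h3 : J n = 0 := by rw [hJ]; exact if_neg (by rw [mem_range]; omega)
        rw [h3, zero_add]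
        have h5 : v n = 2 * μ * (((n : ℝ) + 1) * bm (n + 1)) := by
          rw [← hpv (n + 1), hv n hn, hvd]
          have : μ ^ n ≠ 0 := (pow_pos hμ0 n).ne'
          field_simp
          ring
        rw [h5, hG]
        exact le_of_eq (by ring)
    have hsum := hJs.add (hGs.mul_left (2 * μ))
    have hs : Summable (fun n => v n * t ^ n) :=
      Summable.of_nonneg_of_le (fun n => mul_nonneg (hv0 n) (pow_nonneg ht0 n)) hle hsum.summable
    refine ⟨hs, (hs.tsum_le_tsum hle hsum.summable).trans ?_⟩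
    rw [hsum.tsum_eq]
    have h6 : 2 * μ * ∑' n : ℕ, (n : ℝ) * bm n * t ^ (n - 1) ≤ 2 * μ * (4 * K1 / Real.sqrt (1 - t)) :=
      mul_le_mul_of_nonneg_left s2 (by positivity)
    have h7 : 2 * μ * (4 * K1 / Real.sqrt (1 - t)) = 8 * μ * K1 / Real.sqrt (1 - t) := by ring
    linarith
  -- the primitive
  obtain ⟨o1, o2, o3, -⟩ := hdom
  have h0 : (0 : ℂ) ∈ Om c μ 2 := o3 0 (by simp)
  have hball : ∀ z : ℂ, z ∈ Metric.ball (0 : ℂ) (1 / μ) ↔ μ * ‖z‖ < 1 := by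
    intro z
    rw [mem_ball_zero_iff, lt_div_iff₀ hμ0, mul_comm]
  obtain ⟨F₀, g1, g2, -, g4⟩ := Pool.Agent.N353.AC.prim (Om c μ 2) (1 / μ) (fun n => (u n : ℂ)) f o1
    (fun z hz t ht0 ht1 => om_star hμ1 h0 z hz t ht0 ht1) (by positivity)
    (fun z hz => o3 z ((hball z).1 hz)) f1 (fun z hz => f2 z ((hball z).1 hz))
  obtain ⟨w, hw⟩ : ∃ w : ℕ → ℂ, w = fun m => if m = 0 then 0 else (u (m - 1) : ℂ) / (2 * (m : ℂ)) :=
    ⟨_, rfl⟩
  obtain ⟨d, hd⟩ : ∃ d : ℕ → ℂ, d = fun m => (pv m : ℂ) - w m := ⟨_, rfl⟩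
  obtain ⟨F, hF⟩ : ∃ F : ℂ → ℂ, F = fun z => F₀ z / 2 + ∑ m ∈ range 4, d m * z ^ m := ⟨_, rfl⟩
  obtain ⟨F', hF'⟩ : ∃ F' : ℂ → ℂ, F' = fun z =>
    f z / 2 + ∑ m ∈ range 4, d m * ((m : ℂ) * z ^ (m - 1)) := ⟨_, rfl⟩
  have hder' : ∀ z ∈ Om c μ 2, HasDerivAt F (F' z) z := by
    intro z hz
    rw [hF, hF']
    refine ((g2 z hz).div_const 2).add ?_
    exact HasDerivAt.fun_sum fun m _ => (hasDerivAt_pow m z).const_mul (d m)
  have hFsum : ∀ z : ℂ, μ * ‖z‖ < 1 → HasSum (fun m => (pv m : ℂ) * z ^ m) (F z) := by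
    intro z hz
    rw [hF]
    have k1 := g4 z ((hball z).2 hz)
    have k2 : HasSum (fun m => w m * z ^ m) (F₀ z / 2) := by
      rw [← hasSum_nat_add_iff' 1]
      simp only [Finset.range_one, Finset.sum_singleton]
      have g3 := k1.div_const 2
      have e : w 0 * z ^ 0 = 0 := by rw [hw]; simp
      rw [e, sub_zero]
      have e2 : (fun n => w (n + 1) * z ^ (n + 1)) =
          fun n => (u n : ℂ) / ((n : ℂ) + 1) * z ^ (n + 1) / 2 := by
        funext n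
        have e3 : ((n : ℂ) + 1) ≠ 0 := Nat.cast_add_one_ne_zero n
        rw [hw]
        simp only [Nat.add_eq_zero_iff, one_ne_zero, and_false, if_false, Nat.add_sub_cancel]
        push_cast
        field_simp
      rw [e2]
      exact g3
    have k3 : HasSum (fun m => d m * z ^ m) (∑ m ∈ range 4, d m * z ^ m) := by
      refine hasSum_sum_of_ne_finset_zero fun m hm => ?_
      rw [mem_range, not_lt] at hm
      obtain ⟨n, rfl⟩ : ∃ n, m = n + 1 := ⟨m - 1, by omega⟩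
      have e : d (n + 1) = 0 := by
        rw [hd, hw]
        simp only [Nat.add_eq_zero_iff, one_ne_zero, and_false, if_false, Nat.add_sub_cancel]
        rw [hv n (by omega)]
        push_cast
        ring
      rw [e, zero_mul]
    have k4 := k2.add k3
    have e : (fun m => w m * z ^ m + d m * z ^ m) = fun m => (pv m : ℂ) * z ^ m := by
      funext m
      rw [hd]
      ring
    rw [e] at k4
    exact k4
  -- bounds
  obtain ⟨P, hP⟩ : ∃ P : ℝ, P = ∑ m ∈ range 4, ‖d m‖ * ((m : ℝ) * 3 ^ (m - 1)) := ⟨_, rfl⟩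
  have hP0 : 0 ≤ P := by rw [hP]; positivity
  have hcsl : ∀ z : ℂ, -1 ≤ Pool.Agent.N929.AC.cs 2 z := by
    intro z
    unfold Pool.Agent.N929.AC.cs
    rcases eq_or_ne z 0 with rfl | hz
    · norm_num
    · have hn : 0 < ‖z‖ ^ 2 := pow_pos (norm_pos_iff.2 hz) 2
      rw [le_div_iff₀ hn]
      have := Complex.abs_re_le_norm (z ^ 2)
      rw [norm_pow] at this
      have := (abs_le.1 this).1
      linarith
  have hPb : ∀ z ∈ Om c μ 2, ‖F' z‖ ≤ ‖f z‖ + P := by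
    intro z hz
    have hz' : μ * ‖z‖ < 1 + c * (1 - Pool.Agent.N929.AC.cs 2 z) := hz
    have hz3 : ‖z‖ ≤ 3 := by
      have h1 := hcsl z
      have h2 : ‖z‖ ≤ μ * ‖z‖ := le_mul_of_one_le_left (norm_nonneg z) hμ1
      nlinarith
    rw [hF']
    refine (norm_add_le _ _).trans (add_le_add ?_ ?_)
    · rw [norm_div]
      have : ‖(2 : ℂ)‖ = 2 := by norm_num
      rw [this]
      linarith [norm_nonneg (f z)]
    · rw [hP]
      refine (norm_sum_le _ _).trans (sum_le_sum fun m _ => ?_)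
      rw [norm_mul, norm_mul, norm_pow, Complex.norm_natCast]
      refine mul_le_mul_of_nonneg_left (mul_le_mul_of_nonneg_left
        (pow_le_pow_left₀ (norm_nonneg z) hz3 _) (Nat.cast_nonneg m)) (norm_nonneg _)
  obtain ⟨e0, he0⟩ : ∃ e0 : ℝ, e0 = min c (1 - c) := ⟨_, rfl⟩
  have he0p : 0 < e0 := by rw [he0]; exact lt_min hc (by linarith)
  obtain ⟨Kb, hKb⟩ : ∃ Kb : ℝ, Kb = 2 * (C + 3 * U + P) + 8 * μ * K1 / Real.sqrt e0 +
    8 * μ * K1 + 6 * K2 := ⟨_, rfl⟩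
  have hq1 : 0 ≤ 8 * μ * K1 / Real.sqrt e0 := by positivity
  have hq2 : 0 ≤ 8 * μ * K1 := by positivity
  have hKb0 : 0 ≤ Kb := by rw [hKb]; positivity
  have hyp2 : ∀ z : ℂ, z ≠ 0 → μ * ‖z‖ < 1 + c * (1 - cs 2 z) → cs 2 z < 1 →
      ‖F' z‖ ≤ Kb / Real.sqrt (1 - cs 2 z) := by
    intro z hz0 hz hcs
    have hzO : z ∈ Om c μ 2 := hz
    obtain ⟨hsm, hb⟩ := f3 z hzO hz0 hcs
    obtain ⟨x, hx⟩ : ∃ x : ℝ, x = 1 - cs 2 z := ⟨_, rfl⟩
    have hcl : -1 ≤ cs 2 z := hcsl z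
    have hx0 : 0 < x := by rw [hx]; linarith
    have hx2 : x ≤ 2 := by rw [hx]; linarith
    rw [← hx]
    obtain ⟨t, ht⟩ : ∃ t : ℝ, t = |1 - c * x| := ⟨_, rfl⟩
    have ht0 : 0 ≤ t := by rw [ht]; exact abs_nonneg _
    have hdx : e0 * x ≤ 1 - t := by
      have e1 : e0 * x ≤ c * x := mul_le_mul_of_nonneg_right (by rw [he0]; exact min_le_left _ _) hx0.le
      have e2 : e0 * x ≤ (1 - c) * x :=
        mul_le_mul_of_nonneg_right (by rw [he0]; exact min_le_right _ _) hx0.le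
      rw [ht]
      rcases le_or_gt 0 (1 - c * x) with h | h
      · rw [abs_of_nonneg h]; linarith
      · rw [abs_of_neg h]; nlinarith
    have hdx0 : 0 < e0 * x := mul_pos he0p hx0
    have ht1 : t < 1 := by linarith
    have hxx : xx c μ 2 z = (1 - c * x) / μ := by
      unfold Pool.Agent.N929.AC.xx
      rw [hx]; rfl
    obtain ⟨q1, q2⟩ := hS t ht0 ht1
    have k1 : ∑' n, u n * xx c μ 2 z ^ n ≤ ∑' n, v n * t ^ n := by
      refine hsm.tsum_le_tsum (fun n => ?_) q1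
      have e1 : xx c μ 2 z ^ n ≤ t ^ n / μ ^ n := by
        refine (le_abs_self _).trans (le_of_eq ?_)
        rw [hxx, abs_pow, abs_div, abs_of_pos hμ0, ← ht, div_pow]
      refine (mul_le_mul_of_nonneg_left e1 (hu0 n)).trans (le_of_eq ?_)
      rw [hvd]
      ring
    have k2 : 8 * μ * K1 / Real.sqrt (1 - t) ≤ 8 * μ * K1 / Real.sqrt e0 / Real.sqrt x := by
      rw [div_div, ← Real.sqrt_mul he0p.le]
      exact div_le_div_of_nonneg_left hq2 (Real.sqrt_pos.2 hdx0) (Real.sqrt_le_sqrt hdx)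
    have hsx : 0 < Real.sqrt x := Real.sqrt_pos.2 hx0
    have hsx2 : Real.sqrt x ≤ 2 := by
      rw [show (2 : ℝ) = Real.sqrt 4 by rw [show (4 : ℝ) = 2 ^ 2 by norm_num]; simp]
      exact Real.sqrt_le_sqrt (by linarith)
    have k3 : C + 3 * U + P ≤ 2 * (C + 3 * U + P) / Real.sqrt x := by
      rw [le_div_iff₀ hsx]
      nlinarith
    have k4 := hPb z hzO
    have k5 : ‖F' z‖ ≤ 2 * (C + 3 * U + P) / Real.sqrt x + 8 * μ * K1 / Real.sqrt e0 / Real.sqrt x := by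
      linarith
    refine k5.trans ?_
    rw [← add_div]
    refine div_le_div_of_nonneg_right ?_ hsx.le
    rw [hKb]
    linarith
  have hF1 : (∑' m, pv m / μ ^ m : ℝ) = ∑' j, bj j := by
    simp only [hpv]
    have h1 := (even_hasSum bm (fun m hm => by unfold bm; rw [if_neg fun h => hm h.1])
      (∑' m, bm m)).2 hsumb.hasSum
    simp only [bm_two] at h1
    exact h1.tsum_eq.symm
  have hyp3 : ∀ z : ℂ, μ * ‖z‖ < 1 →
      ‖F z - ((∑' j, bj j : ℝ) : ℂ)‖ ≤ Kb * Real.sqrt ‖1 - ((μ : ℂ) * z) ^ 2‖ ∧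
      ‖F' z‖ ≤ Kb / Real.sqrt (1 - μ * ‖z‖) := by
    intro z hz
    have ht0 : 0 ≤ μ * ‖z‖ := by positivity
    constructor
    · have hwn : ‖((μ : ℂ) * z) ^ 2‖ ≤ 1 := by
        rw [norm_pow, norm_mul, Complex.norm_real, Real.norm_of_nonneg hμ0.le]
        exact pow_le_one₀ ht0 hz.le
      obtain ⟨q1, q2⟩ := hA2 bj K2 bj_nonneg htail2 (((μ : ℂ) * z) ^ 2) hwn
      have k1 : HasSum (fun j => (bj j : ℂ) * (((μ : ℂ) * z) ^ 2) ^ j) (F z) := by
        have k2 := (even_hasSum (fun m => (pv m : ℂ) * z ^ m) (fun m hm => by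
          unfold Pool.Agent.N929.AC.pv
          rw [if_neg fun h => hm h.1]
          simp) (F z)).2 (hFsum z hz)
        refine (congrArg (fun g => HasSum g (F z)) ?_).mp k2
        funext j
        have k3 : pv (2 * j) = bj j * μ ^ (2 * j) := by
          rw [← bm_two, ← hpv, div_mul_cancel₀ _ (pow_pos hμ0 _).ne']
        rw [k3]
        push_cast
        ring
      rw [k1.tsum_eq] at q2
      refine q2.trans (mul_le_mul_of_nonneg_right ?_ (Real.sqrt_nonneg _))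
      rw [hKb]
      have : 0 ≤ 2 * (C + 3 * U + P) := by positivity
      linarith
    · obtain ⟨q1, q2⟩ := hS _ ht0 hz
      have hterm : ∀ n, ‖(u n : ℂ) * z ^ n‖ = v n * (μ * ‖z‖) ^ n := by
        intro n
        rw [norm_mul, norm_pow, Complex.norm_real, Real.norm_of_nonneg (hu0 n), mul_pow, hvd]
        have : μ ^ n ≠ 0 := (pow_pos hμ0 n).ne'
        field_simp
      have hsm : Summable fun n => ‖(u n : ℂ) * z ^ n‖ := by
        simp only [hterm]
        exact q1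
      have k1 : ‖f z‖ ≤ ∑' n, v n * (μ * ‖z‖) ^ n := by
        rw [← (f2 z hz).tsum_eq]
        refine (norm_tsum_le_tsum_norm hsm).trans (le_of_eq ?_)
        simp only [hterm]
      have k2 := hPb z (o3 z hz)
      have hs0 : 0 < Real.sqrt (1 - μ * ‖z‖) := Real.sqrt_pos.2 (by linarith)
      have hs1 : Real.sqrt (1 - μ * ‖z‖) ≤ 1 := by
        have h := Real.sqrt_le_sqrt (show 1 - μ * ‖z‖ ≤ 1 by linarith)
        rwa [Real.sqrt_one] at h
      have k3 : 3 * U + P ≤ (3 * U + P) / Real.sqrt (1 - μ * ‖z‖) := by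
        rw [le_div_iff₀ hs0]
        have : 0 ≤ 3 * U + P := by positivity
        nlinarith
      have k4 : ‖F' z‖ ≤ (3 * U + P) / Real.sqrt (1 - μ * ‖z‖) +
          8 * μ * K1 / Real.sqrt (1 - μ * ‖z‖) := by linarith
      refine k4.trans ?_
      rw [← add_div]
      refine div_le_div_of_nonneg_right ?_ hs0.le
      rw [hKb]
      have : 0 ≤ 6 * K2 := by positivity
      nlinarith
  refine ⟨F, ⟨fun z hz => (hder' z hz).differentiableAt.differentiableWithinAt, hFsum⟩, 50 * Kb,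
    fun z hz => ?_⟩
  have hfinal := hSEG μ c Kb F F' ((∑' j, bj j : ℝ) : ℂ) hμ1 hc hc1 hKb0
    (fun z hz => hder' z hz) hyp2 hyp3 z hz
  rw [hF1, (hder' z hz).deriv]
  exact hfinal

end

end Pool.Agent.H78AC
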