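import Pool.Agent.H78AC.Stm2
import Pool.Agent.H78AC.GEO

/-! Project AC, stub SEG (helper69). -/

set_option autoImplicit false

namespace Pool.Agent.H78AC

theorem seg_normsq (μ : ℝ) (hμ : 0 < μ) (z : ℂ) (hz : z ≠ 0) :
    ‖1 - ((μ : ℂ) * z) ^ 2‖ ^ 2 =
      ((μ * ‖z‖) ^ 2 - 1) ^ 2 + 2 * (μ * ‖z‖) ^ 2 * (1 - cs 2 z) := by
  have hn : 0 < ‖z‖ := norm_pos_iff.2 hz
  have h1 : (((μ : ℂ) * z) ^ 2).re = μ ^ 2 * (z ^ 2).re := by
    rw [mul_pow, ← Complex.ofReal_pow, Complex.re_ofReal_mul]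
  have h2 : (z ^ 2).re = ‖z‖ ^ 2 * cs 2 z := by
    unfold cs
    field_simp
  have h3 : ‖((μ : ℂ) * z) ^ 2‖ = (μ * ‖z‖) ^ 2 := by
    rw [norm_pow, norm_mul, Complex.norm_real, Real.norm_of_nonneg hμ.le]
  set w : ℂ := ((μ : ℂ) * z) ^ 2 with hw
  have h4 : ‖1 - w‖ ^ 2 = 1 - 2 * w.re + ‖w‖ ^ 2 := by
    rw [← Complex.normSq_eq_norm_sq, ← Complex.normSq_eq_norm_sq, Complex.normSq_apply,
      Complex.normSq_apply]
    simp only [Complex.sub_re, Complex.one_re, Complex.sub_im, Complex.one_im]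
    ring
  rw [h4, h3, h1, h2]
  ring

theorem seg_cs_le (z : ℂ) (hz : z ≠ 0) : -1 ≤ cs 2 z := by
  have hn : 0 < ‖z‖ := norm_pos_iff.2 hz
  have h1 : |(z ^ 2).re| ≤ ‖z‖ ^ 2 := by
    rw [← norm_pow]
    exact Complex.abs_re_le_norm _
  unfold cs
  rw [le_div_iff₀ (by positivity)]
  have := (abs_le.1 h1).1
  linarith

theorem seg_cs_smul (z : ℂ) (t : ℝ) (ht : 0 < t) : cs 2 ((t : ℂ) * z) = cs 2 z := by
  have h1 : (((t : ℂ) * z) ^ 2).re = t ^ 2 * (z ^ 2).re := by
    rw [mul_pow, ← Complex.ofReal_pow, Complex.re_ofReal_mul]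
  unfold cs
  rw [h1, norm_mul, Complex.norm_real, Real.norm_of_nonneg ht.le, mul_pow]
  exact mul_div_mul_left _ _ (by positivity)

theorem SEG_holds : SEG := by
  intro μ c K F F' F₁ hμ hc0 hc1 hK hF hA hB z hz
  have hμ0 : 0 < μ := by linarith
  have hDz : z ≠ 0 → 0 < ‖1 - ((μ : ℂ) * z) ^ 2‖ := by
    intro hz0
    rcases (norm_nonneg (1 - ((μ : ℂ) * z) ^ 2)).lt_or_eq with h | h
    · exact h
    · exfalso
      have h1 := seg_normsq μ hμ0 z hz0
      rw [← h] at h1
      have h2 := seg_cs_le z hz0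
      have hρ : 0 < μ * ‖z‖ := mul_pos hμ0 (norm_pos_iff.2 hz0)
      have h3 : cs 2 z ≤ 1 := by
        have hn : 0 < ‖z‖ := norm_pos_iff.2 hz0
        have h4 : |(z ^ 2).re| ≤ ‖z‖ ^ 2 := by
          rw [← norm_pow]
          exact Complex.abs_re_le_norm _
        unfold cs
        rw [div_le_one (by positivity)]
        exact (abs_le.1 h4).2
      have h5 : 0 ≤ 2 * (μ * ‖z‖) ^ 2 * (1 - cs 2 z) :=
        mul_nonneg (by positivity) (by linarith)
      have h6 : ((μ * ‖z‖) ^ 2 - 1) ^ 2 = 0 := by nlinarith [sq_nonneg ((μ * ‖z‖) ^ 2 - 1)]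
      have h7 : 2 * (μ * ‖z‖) ^ 2 * (1 - cs 2 z) = 0 := by nlinarith
      have h8 : (μ * ‖z‖) ^ 2 = 1 := by
        have := pow_eq_zero_iff (two_ne_zero) |>.1 h6
        linarith
      rw [h8] at h7
      have h9 : cs 2 z = 1 := by linarith
      rw [h9] at hz
      have h10 : μ * ‖z‖ < 1 := by linarith
      nlinarith
  constructor
  · -- the function
    rcases lt_or_ge (μ * ‖z‖) 1 with hρ1 | hρ1
    · refine (hB z hρ1).1.trans ?_
      refine mul_le_mul_of_nonneg_right (by linarith) (Real.sqrt_nonneg _)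
    · have hz0 : z ≠ 0 := by
        rintro rfl
        simp at hρ1
        linarith
      have hn : 0 < ‖z‖ := norm_pos_iff.2 hz0
      obtain ⟨γ, hγ⟩ : ∃ γ, γ = cs 2 z := ⟨_, rfl⟩
      obtain ⟨ρ, hρ⟩ : ∃ ρ, ρ = μ * ‖z‖ := ⟨_, rfl⟩
      obtain ⟨D, hD⟩ : ∃ D, D = ‖1 - ((μ : ℂ) * z) ^ 2‖ := ⟨_, rfl⟩
      have hDsq : D ^ 2 = (ρ ^ 2 - 1) ^ 2 + 2 * ρ ^ 2 * (1 - γ) := by
        rw [hD, hρ, hγ]
        exact seg_normsq μ hμ0 z hz0
      have hD0 : 0 < D := by
        rw [hD]
        exact hDz hz0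
      rw [← hD]
      have hzz : ρ < 1 + c * (1 - γ) := by
        rw [hρ, hγ]
        exact hz
      rw [← hρ] at hρ1
      have hγ1 : γ < 1 := by
        by_contra hcon
        push Not at hcon
        have : c * (1 - γ) ≤ 0 := mul_nonpos_of_nonneg_of_nonpos hc0.le (by linarith)
        linarith
      have hγm : -1 ≤ γ := by
        rw [hγ]
        exact seg_cs_le z hz0
      have hcg : c * (1 - γ) < 1 - γ := by nlinarith
      have hρ3 : ρ < 3 := by linarith
      have hρ0 : 0 < ρ := by linarith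
      have hD10 : D ≤ 10 := by
        have h1 : D ≤ 1 + ρ ^ 2 := by
          rw [hD, hρ]
          refine (norm_sub_le _ _).trans ?_
          rw [norm_one, norm_pow, norm_mul, Complex.norm_real, Real.norm_of_nonneg hμ0.le]
        nlinarith
      have hgD : 1 - γ ≤ 5 * D := by
        have h1 : 2 * (1 - γ) ≤ D ^ 2 := by
          rw [hDsq]
          have h2 : (1 - γ) ≤ ρ ^ 2 * (1 - γ) := by
            have : 1 ≤ ρ ^ 2 := by nlinarith
            nlinarith
          nlinarith [sq_nonneg (ρ ^ 2 - 1)]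
        nlinarith
      -- the second point
      obtain ⟨r, hr⟩ : ∃ r, r = 1 - (1 - γ) / 4 := ⟨_, rfl⟩
      have hr1 : r < 1 := by rw [hr]; linarith
      have hr2 : 1 / 2 ≤ r := by rw [hr]; linarith
      obtain ⟨τ, hτ⟩ : ∃ τ, τ = r / ρ := ⟨_, rfl⟩
      have hτ0 : 0 < τ := by rw [hτ]; positivity
      have hτ1 : τ ≤ 1 := by
        rw [hτ, div_le_one hρ0]
        linarith
      have hτρ : τ * ρ = r := by
        rw [hτ]
        field_simp
      have hrho' : μ * ‖(τ : ℂ) * z‖ = r := by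
        rw [norm_mul, Complex.norm_real, Real.norm_of_nonneg hτ0.le, ← hτρ, hρ]
        ring
      have hseg : ∀ w ∈ segment ℝ ((τ : ℂ) * z) z, ∃ t : ℝ, 0 < t ∧ t ≤ 1 ∧ w = (t : ℂ) * z := by
        rintro w ⟨a, b, ha, hb, hab, rfl⟩
        refine ⟨a * τ + b, ?_, ?_, ?_⟩
        · rcases ha.lt_or_eq with h | h
          · have := mul_pos h hτ0
            linarith
          · have : b = 1 := by linarith
            rw [← h, this]
            norm_num
        · nlinarith
        · simp only [Complex.real_smul]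
          push_cast
          ring
      have hdom : ∀ w ∈ segment ℝ ((τ : ℂ) * z) z,
          w ≠ 0 ∧ μ * ‖w‖ < 1 + c * (1 - cs 2 w) ∧ cs 2 w = γ := by
        intro w hw
        obtain ⟨t, ht0, ht1, rfl⟩ := hseg w hw
        have h1 : cs 2 ((t : ℂ) * z) = γ := by
          rw [seg_cs_smul z t ht0, hγ]
        refine ⟨mul_ne_zero (by exact_mod_cast ht0.ne') hz0, ?_, h1⟩
        rw [h1, norm_mul, Complex.norm_real, Real.norm_of_nonneg ht0.le]
        have h2 : μ * (t * ‖z‖) = t * ρ := by rw [hρ]; ring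
        rw [h2]
        nlinarith
      have hsq0 : 0 < Real.sqrt (1 - γ) := Real.sqrt_pos.2 (by linarith)
      have hmv := Convex.norm_image_sub_le_of_norm_hasDerivWithin_le (𝕜 := ℂ) (f := F) (f' := F')
        (C := K / Real.sqrt (1 - γ)) (s := segment ℝ ((τ : ℂ) * z) z)
        (fun w hw => (hF w (hdom w hw).2.1).hasDerivWithinAt)
        (fun w hw => by
          obtain ⟨h1, h2, h3⟩ := hdom w hw
          have h4 := hA w h1 h2 (by rw [h3]; exact hγ1)
          rwa [h3] at h4)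
        (convex_segment _ _) (left_mem_segment ℝ _ _) (right_mem_segment ℝ _ _)
      have hnz : ‖z - (τ : ℂ) * z‖ ≤ 5 / 4 * (1 - γ) := by
        have h1 : z - (τ : ℂ) * z = ((1 - τ : ℝ) : ℂ) * z := by
          push_cast
          ring
        rw [h1, norm_mul, Complex.norm_real, Real.norm_of_nonneg (by linarith)]
        have h2 : (1 - τ) * ‖z‖ ≤ (1 - τ) * ρ := by
          refine mul_le_mul_of_nonneg_left ?_ (by linarith)
          rw [hρ]
          nlinarith
        have h3 : (1 - τ) * ρ = ρ - r := by rw [sub_mul, one_mul, hτρ]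
        rw [h3, hr] at h2
        linarith
      have hstep1 : ‖F z - F ((τ : ℂ) * z)‖ ≤ 5 / 4 * K * Real.sqrt (1 - γ) := by
        refine hmv.trans ?_
        calc K / Real.sqrt (1 - γ) * ‖z - (τ : ℂ) * z‖
            ≤ K / Real.sqrt (1 - γ) * (5 / 4 * (1 - γ)) :=
              mul_le_mul_of_nonneg_left hnz (by positivity)
          _ = 5 / 4 * K * ((1 - γ) / Real.sqrt (1 - γ)) := by ring
          _ = 5 / 4 * K * Real.sqrt (1 - γ) := by rw [Real.div_sqrt]
      have hsqg : Real.sqrt (1 - γ) ≤ 3 * Real.sqrt D := by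
        rw [Real.sqrt_le_left (by positivity), mul_pow, Real.sq_sqrt hD0.le]
        linarith
      -- the second difference
      have hstep2 := (hB ((τ : ℂ) * z) (by rw [hrho']; exact hr1)).1
      have hD' : ‖1 - ((μ : ℂ) * ((τ : ℂ) * z)) ^ 2‖ ≤ 36 * D := by
        have h1 : 1 - ((μ : ℂ) * ((τ : ℂ) * z)) ^ 2 =
            (1 - ((μ : ℂ) * z) ^ 2) + ((1 - τ ^ 2 : ℝ) : ℂ) * ((μ : ℂ) * z) ^ 2 := by
          push_cast
          ring
        have hτ2 : 0 ≤ 1 - τ ^ 2 := by nlinarith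
        have h2 : ‖((1 - τ ^ 2 : ℝ) : ℂ) * ((μ : ℂ) * z) ^ 2‖ = ρ ^ 2 - r ^ 2 := by
          rw [norm_mul, Complex.norm_real, Real.norm_of_nonneg hτ2, norm_pow, norm_mul,
            Complex.norm_real, Real.norm_of_nonneg hμ0.le, ← hρ, ← hτρ]
          ring
        rw [h1]
        refine (norm_add_le _ _).trans ?_
        rw [h2, ← hD]
        have h3 : ρ ^ 2 - r ^ 2 ≤ 5 * (1 - γ) := by
          have h4 : ρ ^ 2 - r ^ 2 = (ρ - r) * (ρ + r) := by ring
          have h5 : ρ - r ≤ 5 / 4 * (1 - γ) := by rw [hr]; linarith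
          rw [h4]
          calc (ρ - r) * (ρ + r) ≤ (5 / 4 * (1 - γ)) * 4 :=
                mul_le_mul h5 (by linarith) (by linarith) (by linarith)
            _ = 5 * (1 - γ) := by ring
        linarith
      have hsqD' : Real.sqrt ‖1 - ((μ : ℂ) * ((τ : ℂ) * z)) ^ 2‖ ≤ 6 * Real.sqrt D := by
        have h7 : (6 * Real.sqrt D) ^ 2 = 36 * D := by
          rw [mul_pow, Real.sq_sqrt hD0.le]
          norm_num
        rw [Real.sqrt_le_left (by positivity), h7]
        exact hD'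
      have hs0 := Real.sqrt_nonneg D
      calc ‖F z - F₁‖ = ‖(F z - F ((τ : ℂ) * z)) + (F ((τ : ℂ) * z) - F₁)‖ := by
            congr 1
            ring
        _ ≤ ‖F z - F ((τ : ℂ) * z)‖ + ‖F ((τ : ℂ) * z) - F₁‖ := norm_add_le _ _
        _ ≤ 5 / 4 * K * (3 * Real.sqrt D) + K * (6 * Real.sqrt D) := by
            refine add_le_add (hstep1.trans ?_) (hstep2.trans ?_)
            · exact mul_le_mul_of_nonneg_left hsqg (by positivity)
            · exact mul_le_mul_of_nonneg_left hsqD' hK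
        _ ≤ 50 * K * Real.sqrt D := by nlinarith [mul_nonneg hK hs0]
  · -- the derivative
    rcases GEO_holds μ c 2 hμ0 hc0 hc1 (Or.inr rfl) z hz with ⟨h1, h2⟩ | ⟨h1, h2⟩
    · rcases eq_or_ne z 0 with rfl | hz0
      · have h3 := (hB 0 (by simp)).2
        simp only [norm_zero, mul_zero, sub_zero, Real.sqrt_one, div_one] at h3
        have h4 : ‖(1 : ℂ) - ((μ : ℂ) * 0) ^ 2‖ = 1 := by simp
        rw [h4, div_one]
        linarith
      · have hD0 := hDz hz0
        refine (hB z h1).2.trans ?_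
        have hx : 0 < 1 - μ * ‖z‖ := by linarith
        have hx1 : 1 - μ * ‖z‖ ≤ 1 := by
          have : 0 ≤ μ * ‖z‖ := by positivity
          linarith
        have hs : 0 < Real.sqrt (1 - μ * ‖z‖) := Real.sqrt_pos.2 hx
        have h5 : 1 - μ * ‖z‖ ≤ Real.sqrt (1 - μ * ‖z‖) := by
          have h6 : Real.sqrt (1 - μ * ‖z‖) ≤ 1 := by
            exact Real.sqrt_le_one.2 hx1
          calc 1 - μ * ‖z‖ = Real.sqrt (1 - μ * ‖z‖) * Real.sqrt (1 - μ * ‖z‖) :=
                (Real.mul_self_sqrt hx.le).symm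
            _ ≤ Real.sqrt (1 - μ * ‖z‖) * 1 := mul_le_mul_of_nonneg_left h6 hs.le
            _ = _ := mul_one _
        rw [div_le_div_iff₀ hs hD0]
        nlinarith [mul_nonneg hK hs.le]
    · rcases eq_or_ne z 0 with rfl | hz0
      · have h3 := (hB 0 (by simp)).2
        simp only [norm_zero, mul_zero, sub_zero, Real.sqrt_one, div_one] at h3
        have h4 : ‖(1 : ℂ) - ((μ : ℂ) * 0) ^ 2‖ = 1 := by simp
        rw [h4, div_one]
        linarith
      · have hD0 := hDz hz0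
        refine (hA z hz0 hz h1).trans ?_
        have hx : 0 < 1 - cs 2 z := by linarith
        have hs : 0 < Real.sqrt (1 - cs 2 z) := Real.sqrt_pos.2 hx
        have h5 : ‖1 - ((μ : ℂ) * z) ^ 2‖ ≤ 50 * Real.sqrt (1 - cs 2 z) := by
          have h7 : (50 * Real.sqrt (1 - cs 2 z)) ^ 2 = 2500 * (1 - cs 2 z) := by
            rw [mul_pow, Real.sq_sqrt hx.le]
            norm_num
          refine le_of_sq_le_sq ?_ (by positivity)
          rw [h7]
          linarith
        rw [div_le_div_iff₀ hs hD0]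
        nlinarith [mul_nonneg hK hs.le]

end Pool.Agent.H78AC
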